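import Pool.Agent.Y116.UV.Defs

/-!
# Cycle class maps with values in mixed Hodge structures: definitions

Let `k` be a subfield of `ℂ`. The data `O b m X`, for the separated schemes `X` of finite type over `k`,
stand for the cycle class maps (regulators)

  `c : CH_b(X_ℂ, m) ⊗ ℚ → H_{m + 2 b}(X(ℂ), ℚ(b))`

from Bloch's higher Chow groups (cycles of dimension `b + m` on `X_ℂ × Δ^m`) to the Borel-Moore
homology with its mixed Hodge structure; `m = 0` is the usual cycle class map.
-/

set_option autoImplicit false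

open CategoryTheory AlgebraicGeometry TensorProduct MvPolynomial Pool.Agent.Y116.UV

namespace Pool.Agent.U483.GU

universe w

/-- The complex conjugation of `ℂ ⊗ H`. -/
noncomputable def bar (H : Type w) [AddCommGroup H] [Module ℚ H] : ℂ ⊗[ℚ] H →+ ℂ ⊗[ℚ] H :=
  (TensorProduct.map (Complex.conjAe.toLinearMap.restrictScalars ℚ) LinearMap.id).toAddMonoidHom

/-- `W` and `F` are the weight filtration and the Hodge filtration of a (rational) mixed Hodge
structure on the finite-dimensional vector space `H`: `W` is increasing, `F` is decreasing, both are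
finite, and `F` induces on `Gr_n^W H` a pure Hodge structure of weight `n`, that is
`Gr_n^W H ⊗ ℂ` is the direct sum of `F^p` and of the complex conjugate of `F^(n + 1 - p)`. -/
structure IsMHS {H : Type w} [AddCommGroup H] [Module ℚ H] (W : ℤ → Submodule ℚ H)
    (F : ℤ → Submodule ℂ (ℂ ⊗[ℚ] H)) : Prop where
  finite : Module.Finite ℚ H
  monoW : Monotone W
  botW : ∃ n, W n = ⊥
  topW : ∃ n, W n = ⊤
  antiF : Antitone F
  topF : ∃ p, F p = ⊤
  botF : ∃ p, F p = ⊥
  sum : ∀ n p : ℤ, ∀ x ∈ (W n).baseChange ℂ, ∃ u ∈ (W n).baseChange ℂ, ∃ v ∈ (W n).baseChange ℂ,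
    u ∈ F p ∧ bar H v ∈ F (n + 1 - p) ∧ x - (u + v) ∈ (W (n - 1)).baseChange ℂ
  inter : ∀ n p : ℤ, ∀ u ∈ (W n).baseChange ℂ, ∀ v ∈ (W n).baseChange ℂ,
    u ∈ F p → bar H v ∈ F (n + 1 - p) → u - v ∈ (W (n - 1)).baseChange ℂ →
    u ∈ (W (n - 1)).baseChange ℂ

/-- A rational vector space `A`, a mixed Hodge structure `H` and a linear map `c : A → H` whose image
consists of Hodge classes. -/
structure HVal : Type (w + 1) where
  /-- the source -/
  A : Type w
  /-- the target -/
  H : Type w
  [addA : AddCommGroup A]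
  [addH : AddCommGroup H]
  [modA : Module ℚ A]
  [modH : Module ℚ H]
  /-- the weight filtration -/
  W : ℤ → Submodule ℚ H
  /-- the Hodge filtration -/
  F : ℤ → Submodule ℂ (ℂ ⊗[ℚ] H)
  mhs : IsMHS W F
  /-- the cycle class map -/
  c : A →ₗ[ℚ] H
  cW : ∀ a, c a ∈ W 0
  cF : ∀ a, (1 : ℂ) ⊗ₜ[ℚ] c a ∈ F 0

attribute [instance] HVal.addA HVal.addH HVal.modA HVal.modH

namespace HVal

/-- A morphism: a commutative square whose second map is a morphism of mixed Hodge structures. -/
structure Hom (X Y : HVal.{w}) where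
  /-- the map of the sources -/
  a : X.A →ₗ[ℚ] Y.A
  /-- the map of the mixed Hodge structures -/
  h : X.H →ₗ[ℚ] Y.H
  comm : ∀ x, h (X.c x) = Y.c (a x)
  mapW : ∀ (n : ℤ), ∀ x ∈ X.W n, h x ∈ Y.W n
  mapF : ∀ (p : ℤ), ∀ x ∈ X.F p, h.baseChange ℂ x ∈ Y.F p

/-- `s` and `r` satisfy `r ∘ s = 1`. -/
def Hom.Section {X Y : HVal.{w}} (s : Hom X Y) (r : Hom Y X) : Prop :=
  (∀ x, r.a (s.a x) = x) ∧ ∀ x, r.h (s.h x) = x

/-- `X` is a direct factor of `Y`. -/
def Fac (X Y : HVal.{w}) : Prop := ∃ (s : Hom X Y) (r : Hom Y X), s.Section r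

/-- `X` and `Y` are isomorphic. -/
def Iso (X Y : HVal.{w}) : Prop := ∃ (s : Hom X Y) (r : Hom Y X), s.Section r ∧ r.Section s

/-- `A = 0` and `H = 0` -/
def Zero (X : HVal.{w}) : Prop := Subsingleton X.A ∧ Subsingleton X.H

/-- The map of the mixed Hodge structures is strict for the weight and the Hodge filtrations (this is
true for all morphisms of mixed Hodge structures by Deligne). -/
def Strict {Y Z : HVal.{w}} (g : Hom Y Z) : Prop :=
  (∀ (n : ℤ) (y : Y.H), g.h y ∈ Z.W n → ∃ y' ∈ Y.W n, g.h y' = g.h y) ∧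
  ∀ (p : ℤ) (y : ℂ ⊗[ℚ] Y.H), g.h.baseChange ℂ y ∈ Z.F p →
    ∃ y' ∈ Y.F p, g.h.baseChange ℂ y' = g.h.baseChange ℂ y

/-- Exactness at `Y` for a sequence `X → Y → Z`. -/
structure Exact {X Y Z : HVal.{w}} (f : Hom X Y) (g : Hom Y Z) : Prop where
  exactA : Function.Exact f.a g.a
  exactH : Function.Exact f.h g.h
  strict : Strict g

/-- The Hodge classes of the mixed Hodge structure `H`, that is `Hom(ℚ(0), H) = W_0 H ∩ F^0`. -/
def hdg (X : HVal.{w}) : Set X.H := {x | x ∈ X.W 0 ∧ (1 : ℂ) ⊗ₜ[ℚ] x ∈ X.F 0}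

/-- All Hodge classes are in the image of `c`. -/
def Onto (X : HVal.{w}) : Prop := ∀ x ∈ X.hdg, ∃ a, X.c a = x

end HVal

/-- `α`, `β`, `δ` are the maps of the long exact sequence
`⋯ → O_{b,m}(Z) → O_{b,m}(X) → O_{b,m}(U) → O_{b,m-1}(Z) → ⋯`. -/
structure IsLES {k : Type} [Field k] (O : ℤ → ℤ → Sch k → HVal.{w}) (b : ℤ) (Z X U : Sch k)
    (α : ∀ m : ℤ, HVal.Hom (O b m Z) (O b m X)) (β : ∀ m : ℤ, HVal.Hom (O b m X) (O b m U))
    (δ : ∀ m : ℤ, HVal.Hom (O b (m + 1) U) (O b m Z)) : Prop where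
  exact1 : ∀ m, HVal.Exact (α m) (β m)
  exact2 : ∀ m, HVal.Exact (β (m + 1)) (δ m)
  exact3 : ∀ m, HVal.Exact (δ m) (α m)

/-- Formal properties of the cycle class maps:
* `iso`: isomorphic schemes;
* `les`: the long exact sequence of a closed subscheme `Z` of `X` with complement `U`;
* `neg`: for every degree `m` the groups of sufficiently small weight are zero for all schemes (there
  are no cycles of negative dimension on `X × Δ^m`, no homology in negative degrees);
* `space`: homotopy invariance;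
* `bundle`: homotopy invariance for the affine bundles `Spec A[w_1, …, w_c] / (∑ f_l w_l - 1) → U` of
  Jouanolou with fibre `𝔸^(c - 1)`, `U` the complement of `f = 0` in `Spec A`;
* `torus`: pull-back to `X × 𝔾_m` and restriction to `X × 1`. -/
structure IsHTheory {k : Type} [Field k] (O : ℤ → ℤ → Sch k → HVal.{w}) : Prop where
  iso : ∀ {X Y : Sch k}, FT True X → Nonempty (X ≅ Y) → ∀ b m : ℤ, HVal.Iso (O b m X) (O b m Y)
  les : ∀ {Z X U : Sch k} (i : Z ⟶ X) (j : U ⟶ X), FT True X → IsTriple i j → ∀ b : ℤ,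
    ∃ α β δ, IsLES O b Z X U α β δ
  neg : ∀ m : ℤ, ∃ β : ℤ, ∀ b < β, ∀ X : Sch k, FT True X → (O b m X).Zero
  space : ∀ (A : Type) [CommRing A] [Algebra k A] [Algebra.FiniteType k A] (r : ℕ) (b m : ℤ),
    HVal.Iso (O b m (aff k A)) (O (b + r) m (aff k (MvPolynomial (Fin r) A)))
  bundle : ∀ (A : Type) [CommRing A] [Algebra k A] [Algebra.FiniteType k A] (c : ℕ)
    (f : Fin c → A) (U : Sch k) (j : U ⟶ aff k A), IsOpenImmersion j.left →
    Set.range j.left = {x : PrimeSpectrum A | ∃ l, f l ∉ x.asIdeal} →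
    ∀ b m : ℤ, HVal.Iso (O b m U) (O (b + c - 1) m (aff k (Jou f)))
  torus : ∀ (A : Type) [CommRing A] [Algebra k A] [Algebra.FiniteType k A] (b m : ℤ),
    HVal.Fac (O b m (aff k A)) (O (b + 1) m (aff k (LaurentPolynomial A)))

section

attribute [local instance] MvPolynomial.gradedAlgebra

/-- The projective space `ℙ^n = Proj k[X_0, …, X_n]` as a scheme over the field `k`. -/
noncomputable def projSpace (k : Type) [Field k] (n : ℕ) : Sch k :=
  Over.mk (Proj.toSpecZero (homogeneousSubmodule (Fin (n + 1)) k) ≫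
    Spec.map (CommRingCat.ofHom (algebraMap k (homogeneousSubmodule (Fin (n + 1)) k 0))))

/-- `X` is a smooth projective scheme over `k`. -/
structure SmoothProjective {k : Type} [Field k] (X : Sch k) : Prop where
  ft : FT True X
  smooth : Smooth X.hom
  proj : ∃ (n : ℕ) (i : X ⟶ projSpace k n), IsClosedImmersion i.left

end

/-- Deeper known properties of the cycle class maps:
* `point`: for `b < 0` the groups `CH_b(pt)`, `H_{2 b}(pt)` and `H_{2 b + 1}(pt)` are zero;
* `finite`: the cycle class maps of the schemes of dimension zero are onto;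
* `negative`: there are no higher Chow groups `CH_b(X, m)` with `m < 0`;
* `weights`: the weights of the Borel-Moore homology `H_{m + 2 b}(X, ℚ(b))` are at least `- m`;
* `semisimple`: for a morphism `u` of the mixed Hodge structures `H_{2 b}(X, ℚ(b)) → H_{2 b}(Y, ℚ(b))`
  the Hodge classes in the image of `W_0` are images of Hodge classes (`W_0` is the lowest part, it is
  pure and polarizable, hence semisimple);
* `jouanolou`: smooth separated schemes of finite type have affine bundles with affine total space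
  (Jouanolou, Thomason), and homotopy invariance;
* `resolution`: for every separated `X` of finite type there are a smooth projective `X'` with
  `dim X' ≤ dim X`, an open subscheme `X°` of `X'` and a proper surjective `X° → X` (Hironaka, Chow),
  and `H_{2 b}(X')(b) → H_{2 b}(X°)(b) → H_{2 b}(X)(b)` has the image `W_0` (Deligne, Jannsen);
* `lefschetz`: the Hodge conjecture for the cycles of codimension one (Lefschetz) and of dimension
  one (by the hard Lefschetz theorem) on smooth projective schemes, and the trivial cases of the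
  codimension and the dimension zero. -/
structure IsHodgeTheory {k : Type} [Field k] (O : ℤ → ℤ → Sch k → HVal.{w}) : Prop
    extends IsHTheory O where
  point : ∀ b : ℤ, b < 0 → (O b 0 (aff k k)).Zero ∧ Subsingleton (O b 1 (aff k k)).H
  finite : ∀ (A : Type) [CommRing A] [Algebra k A] [Module.Finite k A] (b : ℤ),
    (O b 0 (aff k A)).Onto
  negative : ∀ (X : Sch k) (b m : ℤ), FT True X → m < 0 → Subsingleton (O b m X).A
  weights : ∀ (X : Sch k) (b m n : ℤ), FT True X → n < -m → (O b m X).W n = ⊥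
  semisimple : ∀ (X Y : Sch k) (b : ℤ) (u : HVal.Hom (O b 0 X) (O b 0 Y)), FT True X → FT True Y →
    ∀ x ∈ (O b 0 X).W 0, u.h x ∈ (O b 0 Y).hdg → ∃ x' ∈ (O b 0 X).hdg, u.h x' = u.h x
  jouanolou : ∀ X : Sch k, FT True X → Smooth X.hom → ∃ (A : Type) (_ : CommRing A)
    (_ : Algebra k A) (_ : Algebra.FiniteType k A) (r : ℕ), ∀ b m : ℤ,
      HVal.Iso (O b m X) (O (b + r) m (aff k A))
  resolution : ∀ X : Sch k, FT True X → ∃ X' : Sch k, SmoothProjective X' ∧
    topologicalKrullDim X'.left ≤ topologicalKrullDim X.left ∧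
    ∀ b : ℤ, ∃ u : HVal.Hom (O b 0 X') (O b 0 X),
      ∀ x ∈ (O b 0 X).W 0, ∃ x' ∈ (O b 0 X').W 0, u.h x' = x
  lefschetz : ∀ (X : Sch k) (d : ℕ) (b : ℤ), SmoothProjective X →
    topologicalKrullDim X.left ≤ d → (b ≤ 1 ∨ (d : ℤ) - 1 ≤ b) → (O b 0 X).Onto

/-- The Hodge conjecture for the (arbitrary) scheme `X`, in the form of Jannsen: for all `b` the Hodge
classes in `H_{2 b}(X, ℚ(b))` are classes of cycles with rational coefficients. -/
def Hodge {k : Type} [Field k] (O : ℤ → ℤ → Sch k → HVal.{w}) (X : Sch k) : Prop :=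
  ∀ b : ℤ, (O b 0 X).Onto

/-- `g` is a bilinear form with at most `t` terms, and its coefficients are `1` or elements of `T`. -/
structure BilinTerms {k : Type} [Field k] (T : Set k) (t : ℕ) {β γ : Type}
    (g : MvPolynomial (β ⊕ γ) k) : Prop where
  bilin : ∀ m ∈ g.support, ∃ (i : β) (j : γ),
    m = Finsupp.single (Sum.inl i) 1 + Finsupp.single (Sum.inr j) 1
  card : g.support.card ≤ t
  coeff : ∀ m ∈ g.support, coeff m g = 1 ∨ coeff m g ∈ T

/-- The closed subscheme `f_1(y, z) = … = f_c(y, z) = 0` of an affine space. -/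
noncomputable def sysS {k : Type} [Field k] {a₁ a₂ c : ℕ}
    (f : Fin c → MvPolynomial (Fin a₁ ⊕ Fin a₂) k) : Sch k :=
  aff k (MvPolynomial (Fin a₁ ⊕ Fin a₂) k ⧸ Ideal.span (Set.range f))

/-- The smooth affine hypersurface `∑ x_l f_l(y, z) = 1`, for polynomials `f_l` in `y`, `z`. -/
noncomputable def cubS {k : Type} [Field k] {a₁ a₂ c : ℕ}
    (f : Fin c → MvPolynomial (Fin a₁ ⊕ Fin a₂) k) : Sch k :=
  aff k (Jou f)

end Pool.Agent.U483.GU
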